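import Pool.Agent.Run7.h414.DP.Fam
import Pool.Agent.Run7.h414.DP.Dec
import Pool.Agent.R501.MT8

/-!
# The digits in base `q` of sums of powers of `p` whose exponents form a determinantal random set

Let `p, q ≥ 2` be coprime, for instance different primes. The `k` digits in base `p` of the random integer `m` are given by a
determinantal random set `S` of positions (a determinantal point process with an arbitrary Hermitian kernel): the digit number
`i` is `y i` if `i ∈ S` and `x i ≠ y i` otherwise. For instance (`x i = 0`, `y i = 1`) the integer `m p ^ N` is the sum of the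
powers `p ^ (N + i)`, `i ∈ S`, of `p`, where `S` is the set of the edges of a uniform spanning tree of a graph with `k` edges, or
a stationary determinantal process with any symbol which is not almost everywhere `0` or almost everywhere `1` (for example
the discrete sine process with any density), or a set of independent elements (the existence of these examples is not used and
not formalised). Then with a probability close to `1` all words have the right frequencies in all windows of the base `q`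
digits of `m p ^ N + y` below `p ^ N`, for every `N ≤ A k`. So for the multipliers with about `ε n` digits all digits have the
frequency `1 / q` in the whole base `q` expansion of `m p ^ n`, up to an error `2 ε`.

Definitions used (in `Pool.Agent.Run7.h414.DP.Law` and `Pool.Agent.Run7.h414.DP.Fam`): `DetLaw`, `GoodPos`, `DetDigits`
(used with `t = 0`: `0 ≤ P v ≤ μ v` with the law `μ` of an integer with determinantal digits).

From the starting files: the Diophantine input `Pool.Agent.Y933.KE.powers_far` (which rests on the subspace theorem),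
the comparison of measures `Pool.Agent.Y933.KD.Test`, the moments of word counts, `Pool.Agent.Y933.KE.PowRes`, and their
combination for laws with small characteristic functions, `Pool.Agent.R501.MT6` to `MT8`. New is the bound for the
characteristic functions: they are `det (1 + D A)`, and the inequality `|det N|² ≤ exp (tr N* N - k)` for `N = 1 + B D B*`,
`A = B* B`, bounds them by `exp (- E)` with an energy `E` which is at least a constant times the number of the places where the
frequency is far from the rational numbers with small denominators (`Pool.Agent.Run7.h414.DP`).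
-/

set_option autoImplicit false

namespace Pool.Agent.Results.MP_b08cb4_nt.DeterminantalMultiples

open Finset
open Pool.Agent.Run7.h414.DP (DC DC_nonneg DetDigits fam_dc dc_decays)

open Classical in
/-- the law itself -/
theorem main (p q : ℕ) (hp : 2 ≤ p) (hq : 2 ≤ q) (hpq : p.Coprime q) (L₀ : ℕ) (η : ℝ) (hη : 0 < η) :
    (∀ (w : ℕ) (A ε : ℝ), 0 < ε → ∃ k₀ : ℕ, ∀ k : ℕ, k₀ ≤ k → ∀ P : ℕ → ℝ, DC p L₀ η k P →
      ∀ N y : ℕ, (N : ℝ) ≤ A * k →
      ∑ m ∈ range (p ^ k), (if (∀ l j i₀ L : ℕ, 1 ≤ l → l ≤ w → j < q ^ l → q ^ (i₀ + L + l) ≤ p ^ N →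
        |(((range L).filter (fun i => (m * p ^ N + y) / q ^ (i₀ + i) % q ^ l = j)).card : ℝ) -
          L / (q : ℝ) ^ l| ≤ ε * k) then 0 else P m) ≤ ε) ∧
    (∀ ε : ℝ, 0 < ε → ∃ n₀ : ℕ, ∀ n : ℕ, n₀ ≤ n → ∀ k : ℕ, ε * n / 2 ≤ k → (k : ℝ) ≤ ε * n →
      ∀ P : ℕ → ℝ, DC p L₀ η k P →
      ∑ m ∈ range (p ^ k), (if (∀ b < q,
        |((Nat.digits q (m * p ^ n)).count b : ℝ) / (n * Real.logb q p) - 1 / q| ≤ 2 * ε) then 0 else P m) ≤ ε) := by
  have hqR : (2 : ℝ) ≤ q := by exact_mod_cast hq
  have hq0 : (0 : ℝ) < q := by linarith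
  have hpR : (2 : ℝ) ≤ p := by exact_mod_cast hp
  have hp0 : (0 : ℝ) < p := by linarith
  have hlq : 0 < Real.log (q : ℝ) := Real.log_pos (by linarith)
  have hlp : 0 < Real.log (p : ℝ) := Real.log_pos (by linarith)
  obtain ⟨γ, hγ0, hγ1, hdec⟩ := dc_decays p L₀ hp η hη
  obtain ⟨F, hF1⟩ : ∃ F, F = (p ^ (L₀ + 1)).factorial := ⟨_, rfl⟩
  rw [← hF1] at hdec
  have hF : 1 ≤ F := by rw [hF1]; exact Nat.factorial_pos _
  -- the common statement
  have main : ∀ (w : ℕ) (A ε : ℝ), 0 < ε → ∃ k₀ : ℕ, ∀ k : ℕ, k₀ ≤ k → ∀ P : ℕ → ℝ, DC p L₀ η k P →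
      ∀ N J y : ℕ, (N : ℝ) ≤ A * k → q ^ J ≤ p ^ N →
      ∑ m ∈ range (p ^ k), (if Pool.Agent.R501.MT.GoodN q w (ε * k) J (m * p ^ N + y) then 0 else P m) ≤ ε := by
    intro w A ε hε
    obtain ⟨c, k₁, h⟩ := Pool.Agent.R501.MT.decays_pow hp hq hpq w (|A| + 1) (ε / 2) (by positivity) (by positivity)
      F L₀ hF γ hγ0 hγ1
    obtain ⟨k₂, hk₂⟩ := exists_nat_ge (4 * (c : ℝ) / ε)
    refine ⟨k₁ + k₂, fun k hk P hP N J y hN hJ => ?_⟩
    have hc : 4 * (c : ℝ) ≤ ε * k := by
      have h1 : 4 * (c : ℝ) / ε ≤ k := hk₂.trans (by exact_mod_cast (by omega : k₂ ≤ k))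
      rw [div_le_iff₀ hε] at h1
      linarith
    have h1 := h k (by omega) N J ((y : ℝ) / (q : ℝ) ^ J) (hN.trans (by
      apply mul_le_mul_of_nonneg_right _ (Nat.cast_nonneg _)
      linarith [le_abs_self A])) hJ ℕ (range (p ^ k)) P (fun v => 0 + 1 * (v : ℕ)) (hdec k P hP 1 0)
      ((range (p ^ k)).filter (fun m : ℕ => ¬ Pool.Agent.R501.MT.GoodN q w (ε * k) J (m * p ^ N + y)))
      (filter_subset _ _) (by
        intro m hm hcon
        rw [mem_filter] at hm
        apply hm.2
        have e1 : ((0 + 1 * ((m : ℕ) : ℤ) : ℤ) : ℝ) = (m : ℝ) := by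
          push_cast
          ring
        beta_reduce at hcon
        rw [e1] at hcon
        have h3 := Pool.Agent.R501.MT.goodN_mul hq (by positivity) _ _ hcon
        intro l j i₀ L hl hlw hj hL
        refine (h3 l j i₀ L hl hlw hj hL).trans ?_
        linarith)
    refine le_trans (le_of_eq ?_) (h1.trans (by linarith))
    rw [sum_filter]
    apply sum_congr rfl
    intro m _
    by_cases hg : Pool.Agent.R501.MT.GoodN q w (ε * k) J (m * p ^ N + y)
    · rw [if_pos hg, if_neg (not_not.2 hg)]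
    · rw [if_neg hg, if_pos hg]
  refine ⟨fun w A ε hε => ?_, fun ε hε => ?_⟩
  · obtain ⟨k₀, h⟩ := main w A ε hε
    refine ⟨k₀, fun k hk P hP N y hN => ?_⟩
    have hJ1 : q ^ (Nat.log q (p ^ N)) ≤ p ^ N := Nat.pow_log_le_self q (by positivity)
    refine le_trans (sum_le_sum fun m _ => ?_) (h k hk P hP N _ y hN hJ1)
    by_cases hcon : Pool.Agent.R501.MT.GoodN q w (ε * k) (Nat.log q (p ^ N)) (m * p ^ N + y)
    · rw [if_pos hcon, if_pos]
      intro l j i₀ L hl hlw hj hL
      refine hcon l j i₀ L hl hlw hj ?_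
      have : i₀ + L + l ≤ Nat.log q (p ^ N) := Nat.le_log_of_pow_le (by omega) hL
      omega
    · rw [if_neg hcon]
      split_ifs
      · exact DC_nonneg hP m
      · exact le_rfl
  · obtain ⟨ε', hε'⟩ : ∃ ε', ε' = min ε (min (Real.log p / (4 * Real.log q)) (Real.log p / (4 * q * ε * Real.log q))) :=
      ⟨_, rfl⟩
    have hε'0 : 0 < ε' := by rw [hε']; exact lt_min hε (lt_min (by positivity) (by positivity))
    have hε'1 : ε' ≤ ε := by rw [hε']; exact min_le_left _ _
    have hε'2 : ε' ≤ Real.log p / (4 * Real.log q) := by rw [hε']; exact (min_le_right _ _).trans (min_le_left _ _)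
    have hε'3 : ε' ≤ Real.log p / (4 * q * ε * Real.log q) := by rw [hε']; exact (min_le_right _ _).trans (min_le_right _ _)
    obtain ⟨k₀, h⟩ := main 1 (2 / ε) ε' hε'0
    obtain ⟨n₁, hn₁⟩ := Pool.Agent.Y933.KE.freq_of_low hp hq hε
    obtain ⟨n₂, hn₂⟩ := exists_nat_ge (2 * ((k₀ : ℝ) + 1) / ε)
    obtain ⟨n₃, hn₃⟩ := exists_nat_ge (4 * Real.log q / Real.log p)
    refine ⟨n₁ + n₂ + n₃, fun n hn k hk1 hk2 P hP => ?_⟩
    have hn2 : 2 * ((k₀ : ℝ) + 1) / ε ≤ n := hn₂.trans (by exact_mod_cast (by omega : n₂ ≤ n))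
    rw [div_le_iff₀ hε] at hn2
    have hn3 : 4 * Real.log q / Real.log p ≤ n := hn₃.trans (by exact_mod_cast (by omega : n₃ ≤ n))
    rw [div_le_iff₀ hlp] at hn3
    have hkk : (k₀ : ℝ) + 1 ≤ k := by linarith
    have hkk' : k₀ + 1 ≤ k := by exact_mod_cast hkk
    have hk0 : (0 : ℝ) < k := by exact_mod_cast (by omega : 0 < k)
    have hN : (n : ℝ) ≤ 2 / ε * k := by
      rw [div_mul_eq_mul_div, le_div_iff₀ hε]
      linarith
    have hJ1 : q ^ (Nat.log q (p ^ n)) ≤ p ^ n := Nat.pow_log_le_self q (by positivity)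
    refine le_trans (sum_le_sum fun m hm => ?_) ((h k (by omega) P hP n _ 0 hN hJ1).trans hε'1)
    by_cases hcon : Pool.Agent.R501.MT.GoodN q 1 (ε' * k) (Nat.log q (p ^ n)) (m * p ^ n + 0)
    · rw [if_pos hcon, if_pos]
      have hm1 : 1 ≤ m := by
        by_contra hz
        have hz' : m = 0 := by omega
        have h5 := hcon 1 1 0 (Nat.log q (p ^ n)) le_rfl le_rfl (by rw [pow_one]; omega) (by omega)
        rw [hz', filter_false_of_mem (fun i _ => by simp), card_empty, Nat.cast_zero, zero_sub, abs_neg,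
          abs_of_nonneg (by positivity), pow_one, div_le_iff₀ hq0] at h5
        have h6 : (n : ℝ) * Real.log p / Real.log q < (Nat.log q (p ^ n) : ℝ) + 1 := by
          have g1 : p ^ n < q ^ (Nat.log q (p ^ n) + 1) := Nat.lt_pow_succ_log_self (by omega) _
          have g2 : (p : ℝ) ^ n < (q : ℝ) ^ (Nat.log q (p ^ n) + 1) := by exact_mod_cast g1
          have g3 := Real.log_lt_log (by positivity) g2
          rw [Real.log_pow, Real.log_pow] at g3
          rw [div_lt_iff₀ hlq]
          push_cast at g3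
          exact g3
        have h7 : ε' * k * q ≤ (n : ℝ) * Real.log p / Real.log q / 4 := by
          calc ε' * k * q ≤ (Real.log p / (4 * q * ε * Real.log q)) * (ε * n) * q := by
                apply mul_le_mul_of_nonneg_right _ hq0.le
                exact mul_le_mul hε'3 hk2 hk0.le (by positivity)
            _ = _ := by field_simp
        have h8 : 4 ≤ (n : ℝ) * Real.log p / Real.log q := by
          rw [le_div_iff₀ hlq]
          exact hn3
        linarith
      have hm2 : (m : ℝ) ≤ (p : ℝ) ^ (ε * n) := by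
        have h4 : (m : ℝ) ≤ (p : ℝ) ^ k := by exact_mod_cast (mem_range.1 hm).le
        refine h4.trans ?_
        rw [← Real.rpow_natCast]
        exact Real.rpow_le_rpow_of_exponent_le (by linarith) hk2
      intro b hb
      refine hn₁ n (by omega) _ b hm1 hm2 ?_
      have h5 := hcon 1 b 0 (Nat.log q (p ^ n)) le_rfl le_rfl (by simpa using hb) (by omega)
      simp only [zero_add, add_zero, pow_one] at h5
      refine h5.trans ?_
      calc ε' * k ≤ Real.log p / (4 * Real.log q) * (ε * n) := mul_le_mul hε'2 hk2 hk0.le (by positivity)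
        _ = 1 / (4 * Real.log q) * (ε * n * Real.log p) := by ring
    · rw [if_neg hcon]
      split_ifs
      · exact DC_nonneg hP m
      · exact le_rfl

open Classical in
/-- Let `p, q ≥ 2` be coprime, `L₀` and `η > 0`, and let `m < p ^ k` be the random integer with `k` determinantal digits in base `p`
(`DetDigits p L₀ η 0 k P`).

(1) For all `w`, `A`, `ε > 0`, for all large `k`, for all `N ≤ A k` and all `y`: up to a probability of at most `ε`, for
every word `j` of `l ≤ w` digits in base `q` and all `i₀`, `L` with `q ^ (i₀ + L + l) ≤ p ^ N`, the number of the `i < L` such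
that the digits of `m * p ^ N + y` in base `q` at the places `i₀ + i, …, i₀ + i + l - 1` form the word `j` differs from
`L / q ^ l` by at most `ε k`.

(2) For all `ε > 0`, for all large `n` and all `k` with `ε n / 2 ≤ k ≤ ε n`: up to a probability of at most `ε`, for every
digit `b < q` the number of digits `b` in the base `q` expansion of `m * p ^ n`, divided by `n log_q p`, differs from `1 / q`
by at most `2 ε`. -/
theorem result (p q : ℕ) (hp : 2 ≤ p) (hq : 2 ≤ q) (hpq : p.Coprime q) (L₀ : ℕ) (η : ℝ) (hη : 0 < η) :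
    (∀ (w : ℕ) (A ε : ℝ), 0 < ε → ∃ k₀ : ℕ, ∀ k : ℕ, k₀ ≤ k → ∀ P : ℕ → ℝ, DetDigits p L₀ η 0 k P →
      ∀ N y : ℕ, (N : ℝ) ≤ A * k →
      ∑ m ∈ range (p ^ k), (if (∀ l j i₀ L : ℕ, 1 ≤ l → l ≤ w → j < q ^ l → q ^ (i₀ + L + l) ≤ p ^ N →
        |(((range L).filter (fun i => (m * p ^ N + y) / q ^ (i₀ + i) % q ^ l = j)).card : ℝ) -
          L / (q : ℝ) ^ l| ≤ ε * k) then 0 else P m) ≤ ε) ∧
    (∀ ε : ℝ, 0 < ε → ∃ n₀ : ℕ, ∀ n : ℕ, n₀ ≤ n → ∀ k : ℕ, ε * n / 2 ≤ k → (k : ℝ) ≤ ε * n →
      ∀ P : ℕ → ℝ, DetDigits p L₀ η 0 k P →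
      ∑ m ∈ range (p ^ k), (if (∀ b < q,
        |((Nat.digits q (m * p ^ n)).count b : ℝ) / (n * Real.logb q p) - 1 / q| ≤ 2 * ε) then 0 else P m) ≤ ε) := by
  obtain ⟨h1, h2⟩ := main p q hp hq hpq L₀ η hη
  refine ⟨fun w A ε hε => ?_, fun ε hε => ?_⟩
  · obtain ⟨k₀, h⟩ := h1 w A ε hε
    refine ⟨k₀, fun k hk P hP N y hN => ?_⟩
    obtain ⟨μ, hμ, hPμ⟩ := fam_dc hP
    refine le_trans (sum_le_sum fun m _ => ?_) (h k hk μ hμ N y hN)
    have h3 := (hPμ m).2
    rw [pow_zero, one_mul] at h3
    split_ifs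
    · exact le_rfl
    · exact h3
  · obtain ⟨n₀, h⟩ := h2 ε hε
    refine ⟨n₀, fun n hn k hk1 hk2 P hP => ?_⟩
    obtain ⟨μ, hμ, hPμ⟩ := fam_dc hP
    refine le_trans (sum_le_sum fun m _ => ?_) (h n hn k hk1 hk2 μ hμ)
    have h3 := (hPμ m).2
    rw [pow_zero, one_mul] at h3
    split_ifs
    · exact le_rfl
    · exact h3

end Pool.Agent.Results.MP_b08cb4_nt.DeterminantalMultiples
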