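import Pool.Agent.Run7.h710.TR.E
import Pool.Agent.R501.MT8

/-!
# The digits in base `q` of the multiples of `p ^ n` by the integers written by a transducer

Let `p, q ≥ 2` be coprime, for instance different primes. The multipliers are the integers `T(v)`, where `T` is a transducer
which reads the digits of `v` in base `a` and writes the digits of `T(v)` in base `p` (definitions in
`Pool.Agent.Run7.h710.TR.Defs`); for instance `T(v) p ^ n` is the sum of the powers `p ^ (n + i)` over the places `i` where
a random word has some pattern. These multipliers may be a very thin set. Nevertheless for almost all `v < a ^ k` all words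
have the right frequencies in all windows of the base `q` digits of `T(v) p ^ N + y` below `p ^ N`, for every `N ≤ A k`; so
for `k` about `ε n` all digits have the frequency `1 / q` in the whole base `q` expansion of `T(v) p ^ n`, up to an error
`2 ε`.

Method: if two words of `L` digits lead from the same state to the same state and different words are written, then the two
parts of the exponential sum over the integers `T(v)` which belong to these words cancel in part at the places where the
frequency has a digit which is not extremal. From the starting files: the Diophantine input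
`Pool.Agent.Y933.KE.powers_far` (which rests on the subspace theorem), the comparison of measures `Pool.Agent.Y933.KD.Test`,
the moments of word counts, `Pool.Agent.Y933.KE.PowRes`, and their combination `Pool.Agent.R501.MT.decays_pow`.

Examples: the bitwise conjunction or disjunction of `v` and `m v` (the carries are the states); the integer whose digit `i`
is `f(x_i, x_{i+1}, …, x_{i+r})`, where `x_i` are the digits of `v` and `f` is not constant (one-sided cellular automata).
-/

set_option autoImplicit false

namespace Pool.Agent.Results.MP_b08cb4_nt.TransducerMultiples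

open Finset Pool.Agent.Run7.h710.TR

open Classical in
/-- Let `p, q ≥ 2` be coprime, `a`, `L ≥ 1`. Below an arbitrary transducer is given which reads digits `< a` and writes digits
`< p` (with finitely or infinitely many states) such that from every state two words of `L` digits lead to the same state,
while different words are written; it begins in an arbitrary state `z` and reads from the left or from the right; `T(v)` is
the integer which is written when `v` is read (`k` and `n` must be large in terms of the fixed numbers only).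

(1) For all `w`, `A`, `ε > 0`, for all large `k`, for all `N ≤ A k` and all `y`: for all the `v < a ^ k` but at most
`ε a ^ k`, for every word `j` of `l ≤ w` digits in base `q` and all `i₀`, `M` with `q ^ (i₀ + M + l) ≤ p ^ N`, the number of
the `i < M` such that the digits of `T(v) * p ^ N + y` in base `q` at the places `i₀ + i, …, i₀ + i + l - 1` form the word
`j` differs from `M / q ^ l` by at most `ε k`.

(2) For all `ε > 0`, for all large `n` and all `k` with `ε n / 2 ≤ k ≤ ε n`: for all the `v < a ^ k` but at most `ε a ^ k`,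
for every digit `b < q` the number of digits `b` in the base `q` expansion of `T(v) * p ^ n`, divided by `n log_q p`, differs
from `1 / q` by at most `2 ε`. -/
theorem result (p q : ℕ) (hp : 2 ≤ p) (hq : 2 ≤ q) (hpq : p.Coprime q) (a L : ℕ) (hL : 1 ≤ L) :
    (∀ (w : ℕ) (A ε : ℝ), 0 < ε → ∃ k₀ : ℕ, ∀ k : ℕ, k₀ ≤ k →
      ∀ (S : Type) (δ : S → ℕ → S) (o : S → ℕ → ℕ), Transducer a p L δ o → ∀ (left : Bool) (z : S) (N y : ℕ), (N : ℝ) ≤ A * k →
      (((range (a ^ k)).filter fun v => ¬ ∀ l j i₀ M : ℕ, 1 ≤ l → l ≤ w → j < q ^ l →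
        q ^ (i₀ + M + l) ≤ p ^ N →
        |(((range M).filter (fun i => (image a p δ o left k z v * p ^ N + y) / q ^ (i₀ + i) % q ^ l = j)).card : ℝ) -
          M / (q : ℝ) ^ l| ≤ ε * k).card : ℝ) ≤ ε * (a : ℝ) ^ k) ∧
    (∀ ε : ℝ, 0 < ε → ∃ n₀ : ℕ, ∀ n : ℕ, n₀ ≤ n → ∀ k : ℕ, ε * n / 2 ≤ k → (k : ℝ) ≤ ε * n →
      ∀ (S : Type) (δ : S → ℕ → S) (o : S → ℕ → ℕ), Transducer a p L δ o → ∀ (left : Bool) (z : S),
      (((range (a ^ k)).filter fun v => ∃ b < q, 2 * ε <
        |((Nat.digits q (image a p δ o left k z v * p ^ n)).count b : ℝ) / (n * Real.logb q p) - 1 / q|).card : ℝ) ≤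
        ε * (a : ℝ) ^ k) := by
  have hqR : (2 : ℝ) ≤ q := by exact_mod_cast hq
  have hq0 : (0 : ℝ) < q := by linarith
  have hpR : (2 : ℝ) ≤ p := by exact_mod_cast hp
  have hp0 : (0 : ℝ) < p := by linarith
  have hlq : 0 < Real.log (q : ℝ) := Real.log_pos (by linarith)
  have hlp : 0 < Real.log (p : ℝ) := Real.log_pos (by linarith)
  obtain ⟨γ, hγ0, hγ1, hdec⟩ := tr_decays a p L hp hL
  -- the common statement
  have main : ∀ (w : ℕ) (A ε : ℝ), 0 < ε → ∃ k₀ : ℕ, ∀ k : ℕ, k₀ ≤ k →
      ∀ (S : Type) (δ : S → ℕ → S) (o : S → ℕ → ℕ), Transducer a p L δ o → ∀ (left : Bool) (z : S) (N J y : ℕ),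
      (N : ℝ) ≤ A * k → q ^ J ≤ p ^ N →
      (((range (a ^ k)).filter fun v =>
        ¬ Pool.Agent.R501.MT.GoodN q w (ε * k) J (image a p δ o left k z v * p ^ N + y)).card : ℝ) ≤ ε * (a : ℝ) ^ k := by
    intro w A ε hε
    obtain ⟨c, k₁, H⟩ := Pool.Agent.R501.MT.decays_pow hp hq hpq w (|A| + 1) (ε / 2) (by positivity) (by positivity)
      (p.factorial * (p ^ L).factorial) (L + 1) (Nat.mul_pos (Nat.factorial_pos _) (Nat.factorial_pos _)) γ hγ0 hγ1
    obtain ⟨k₂, hk₂⟩ := exists_nat_ge (4 * (c : ℝ) / ε)
    refine ⟨k₁ + k₂, fun k hk S δ o hT left z N J y hN hJ => ?_⟩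
    have ha := two_le hT z
    have hc : 4 * (c : ℝ) ≤ ε * k := by
      have h1 : 4 * (c : ℝ) / ε ≤ k := hk₂.trans (by exact_mod_cast (by omega : k₂ ≤ k))
      rw [div_le_iff₀ hε] at h1
      linarith
    have h1 := H k (by omega) N J ((y : ℝ) / (q : ℝ) ^ J) (hN.trans (by
      apply mul_le_mul_of_nonneg_right _ (Nat.cast_nonneg _)
      linarith [le_abs_self A])) hJ ℕ (range (a ^ k)) (wt a k) (Pool.Agent.Run7.h710.TR.val a p δ o left k z 0 1)
      (hdec S δ o hT left z k 1 0) ((range (a ^ k)).filter fun v =>
        ¬ Pool.Agent.R501.MT.GoodN q w (ε * k) J (image a p δ o left k z v * p ^ N + y)) (filter_subset _ _) (by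
      intro v hv hgood
      apply (mem_filter.1 hv).2
      have e1 : ((Pool.Agent.Run7.h710.TR.val a p δ o left k z 0 1 v : ℤ) : ℝ) = ((image a p δ o left k z v : ℕ) : ℝ) := by
        unfold Pool.Agent.Run7.h710.TR.val
        push_cast
        ring
      rw [e1] at hgood
      have h3 := Pool.Agent.R501.MT.goodN_mul hq (by positivity) _ _ hgood
      intro l j i₀ M hl hlw hj hM
      refine (h3 l j i₀ M hl hlw hj hM).trans ?_
      linarith)
    refine (card_of_sum (by omega) h1).trans ?_
    apply mul_le_mul_of_nonneg_right _ (by positivity)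
    linarith
  refine ⟨fun w A ε hε => ?_, fun ε hε => ?_⟩
  · obtain ⟨k₀, h⟩ := main w A ε hε
    refine ⟨k₀, fun k hk S δ o hT left z N y hN => ?_⟩
    have hJ1 : q ^ (Nat.log q (p ^ N)) ≤ p ^ N := Nat.pow_log_le_self q (by positivity)
    refine le_trans ?_ (h k hk S δ o hT left z N _ y hN hJ1)
    rw [Nat.cast_le]
    apply card_le_card
    intro v hv
    rw [mem_filter] at hv ⊢
    refine ⟨hv.1, fun hcon => hv.2 fun l j i₀ M hl hlw hj hM => hcon l j i₀ M hl hlw hj ?_⟩
    have : i₀ + M + l ≤ Nat.log q (p ^ N) := Nat.le_log_of_pow_le (by omega) hM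
    omega
  · -- if `ε ≥ 1` there is nothing to prove
    rcases le_or_gt 1 ε with hε1 | hε1
    · refine ⟨0, fun n _ k _ _ S δ o hT left z => ?_⟩
      have h1 : (((range (a ^ k)).filter fun v => ∃ b < q, 2 * ε <
          |((Nat.digits q (image a p δ o left k z v * p ^ n)).count b : ℝ) / (n * Real.logb q p) - 1 / q|).card : ℝ) ≤
          (a : ℝ) ^ k := by
        have h2 := card_filter_le (range (a ^ k)) (fun v => ∃ b < q, 2 * ε <
          |((Nat.digits q (image a p δ o left k z v * p ^ n)).count b : ℝ) / (n * Real.logb q p) - 1 / q|)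
        rw [card_range] at h2
        exact_mod_cast h2
      refine h1.trans ?_
      exact le_mul_of_one_le_left (by positivity) hε1
    obtain ⟨ε', hε'⟩ : ∃ ε', ε' = min ε (Real.log p / (4 * Real.log q)) := ⟨_, rfl⟩
    have hε'0 : 0 < ε' := by rw [hε']; exact lt_min hε (by positivity)
    have hε'1 : ε' ≤ ε := by rw [hε']; exact min_le_left _ _
    have hε'2 : ε' ≤ Real.log p / (4 * Real.log q) := by rw [hε']; exact min_le_right _ _
    obtain ⟨k₀, h⟩ := main 1 (2 / ε) ε' hε'0
    obtain ⟨n₁, hn₁⟩ := Pool.Agent.Y933.KE.freq_of_low hp hq hε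
    obtain ⟨n₂, hn₂⟩ := exists_nat_ge (2 * ((k₀ : ℝ) + 1) / ε)
    obtain ⟨n₃, hn₃⟩ := exists_nat_ge (4 * Real.log q / Real.log p)
    refine ⟨n₁ + n₂ + n₃ + 1, fun n hn k hk1 hk2 S δ o hT left z => ?_⟩
    have hn2 : 2 * ((k₀ : ℝ) + 1) / ε ≤ n := hn₂.trans (by exact_mod_cast (by omega : n₂ ≤ n))
    rw [div_le_iff₀ hε] at hn2
    have hkk : (k₀ : ℝ) + 1 ≤ k := by linarith
    have hkk' : k₀ + 1 ≤ k := by exact_mod_cast hkk
    have hk0 : (0 : ℝ) < k := by exact_mod_cast (by omega : 0 < k)
    have hnpos : (0 : ℝ) < n := by exact_mod_cast (by omega : 0 < n)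
    have hN : (n : ℝ) ≤ 2 / ε * k := by
      rw [div_mul_eq_mul_div, le_div_iff₀ hε]
      linarith
    have hJ1 : q ^ (Nat.log q (p ^ n)) ≤ p ^ n := Nat.pow_log_le_self q (by positivity)
    have h2 : ε' * (a : ℝ) ^ k ≤ ε * (a : ℝ) ^ k := mul_le_mul_of_nonneg_right hε'1 (by positivity)
    refine le_trans ?_ ((h k (by omega) S δ o hT left z n _ 0 hN hJ1).trans h2)
    rw [Nat.cast_le]
    apply card_le_card
    intro v hv
    rw [mem_filter] at hv ⊢
    refine ⟨hv.1, fun hcon => ?_⟩
    obtain ⟨b, hb, hbad⟩ := hv.2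
    have hcal : ε' * k ≤ 1 / (4 * Real.log q) * (ε * n * Real.log p) := by
      calc ε' * k ≤ Real.log p / (4 * Real.log q) * (ε * n) := mul_le_mul hε'2 hk2 hk0.le (by positivity)
        _ = 1 / (4 * Real.log q) * (ε * n * Real.log p) := by ring
    have hm1 : 1 ≤ image a p δ o left k z v := by
      by_contra hz
      have hz' : image a p δ o left k z v = 0 := by omega
      -- all the digits of `0` are `0`
      have h3 := hcon 1 0 0 (Nat.log q (p ^ n)) le_rfl le_rfl (by positivity) (by omega)
      obtain ⟨J, hJ⟩ : ∃ J, J = Nat.log q (p ^ n) := ⟨_, rfl⟩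
      rw [← hJ, filter_true_of_mem (fun i _ => by rw [hz']; simp), card_range, pow_one] at h3
      have hJ0 : (0 : ℝ) ≤ J := Nat.cast_nonneg _
      have h4 : (J : ℝ) / 2 ≤ J - J / q := by
        have : (J : ℝ) / q ≤ J / 2 := div_le_div_of_nonneg_left hJ0 (by norm_num) hqR
        linarith
      have h5 : (J : ℝ) / 2 ≤ ε' * k := (h4.trans (le_abs_self _)).trans h3
      have h6 : (n : ℝ) * Real.log p < (J + 1) * Real.log q := by
        have h7 : p ^ n < q ^ (J + 1) := by
          rw [hJ]
          exact Nat.lt_pow_succ_log_self (by omega) _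
        have h8 : (p : ℝ) ^ n < (q : ℝ) ^ (J + 1) := by exact_mod_cast h7
        have h9 := Real.log_lt_log (by positivity) h8
        rw [Real.log_pow, Real.log_pow] at h9
        push_cast at h9
        exact h9
      have h10 : 4 * Real.log q ≤ n * Real.log p := by
        have h11 : 4 * Real.log q / Real.log p ≤ n := hn₃.trans (by exact_mod_cast (by omega : n₃ ≤ n))
        rwa [div_le_iff₀ hlp] at h11
      have h12 : (J : ℝ) / 2 ≤ 1 / (4 * Real.log q) * (ε * n * Real.log p) := h5.trans hcal
      have h13 : 1 / (4 * Real.log q) * (ε * n * Real.log p) ≤ n * Real.log p / (4 * Real.log q) := by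
        rw [one_div_mul_eq_div]
        apply div_le_div_of_nonneg_right _ (by positivity)
        rw [mul_assoc]
        exact mul_le_of_le_one_left (by positivity) hε1.le
      have h14 := h12.trans h13
      rw [le_div_iff₀ (by positivity)] at h14
      nlinarith
    have hm2 : (image a p δ o left k z v : ℝ) ≤ (p : ℝ) ^ (ε * n) := by
      have h3 : image a p δ o left k z v < p ^ k := image_lt hp hT left k z v
      have h4 : (image a p δ o left k z v : ℝ) ≤ (p : ℝ) ^ k := by exact_mod_cast h3.le
      refine h4.trans ?_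
      rw [← Real.rpow_natCast]
      exact Real.rpow_le_rpow_of_exponent_le (by linarith) hk2
    refine absurd (hn₁ n (by omega) _ b hm1 hm2 ?_) (not_le.2 hbad)
    have h5 := hcon 1 b 0 (Nat.log q (p ^ n)) le_rfl le_rfl (by simpa using hb) (by omega)
    simp only [zero_add, add_zero, pow_one] at h5
    exact h5.trans hcal

end Pool.Agent.Results.MP_b08cb4_nt.TransducerMultiples
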