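import Pool.Agent.Run7.h672.CC.H
import Pool.Agent.R501.MT8

/-!
# The digits in base `q` of sums of powers of `p`: multiples of `p ^ n` by integers whose digits are written by random words

Let `p, q ≥ 2` be coprime, for instance different primes. Let `m` be the random integer whose `k` digits in base `p` are
written by independent random words, for any law of the words (any language, finite or infinite) with an exponential moment
for the lengths, for which the lengths have no common divisor and two words do not commute: for instance `m p ^ N` is the sum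
of the powers `p ^ n` with `n` in a random subset of `[N, N + k)` given by a renewal process (the gaps between two consecutive
exponents are independent and have any distribution with an exponential moment). Then with a probability close to `1` all
words have the right frequencies in all windows of the base `q` digits of `m p ^ N + y` below `p ^ N`, for every `N ≤ A k`.
So for the multipliers with about `ε n` digits all digits have the frequency `1 / q` in the whole base `q` expansion of
`m p ^ n`, up to an error `2 ε`.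

The definitions `len`, `Words`, `cat`, `noRest`, `cutWord`, `WordLaw` are in `Pool.Agent.Run7.h672.CC.Defs`.

From the starting files: the Diophantine input `Pool.Agent.Y933.KE.powers_far` (which rests on the subspace theorem),
the comparison of measures `Pool.Agent.Y933.KD.Test`, the moments of word counts, `Pool.Agent.Y933.KE.PowRes`, and their
combination for laws with small characteristic functions, `Pool.Agent.R501.MT6` to `MT8`. New is the bound for the
characteristic functions of the integers written by random words, `Pool.Agent.Run7.h672.CC`.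
-/

set_option autoImplicit false

namespace Pool.Agent.Results.MP_b08cb4_nt.WordMultiples

open Finset
open Pool.Agent.Run7.h672.CC

open Classical in
/-- Let `p, q ≥ 2` be coprime and let `W` be the law of a random word in base `p` (`Words p W`). Let `m < p ^ k` be the random
integer whose `k` digits in base `p` are written by independent random words with the law `W`, conditioned on the total
length `k`, or cut after `k` digits (`WordLaw p W k P`).

(1) For all `w`, `A`, `ε > 0`, for all large `k`, for all `N ≤ A k` and all `y`: with a probability of at least `1 - ε`, for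
every word `j` of `l ≤ w` digits in base `q` and all `i₀`, `L` with `q ^ (i₀ + L + l) ≤ p ^ N`, the number of the `i < L` such
that the digits of `m * p ^ N + y` in base `q` at the places `i₀ + i, …, i₀ + i + l - 1` form the word `j` differs from
`L / q ^ l` by at most `ε k`.

(2) For all `ε > 0`, for all large `n` and all `k` with `ε n / 2 ≤ k ≤ ε n`: with a probability of at least `1 - ε`, for every
digit `b < q` the number of digits `b` in the base `q` expansion of `m * p ^ n`, divided by `n log_q p`, differs from `1 / q`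
by at most `2 ε`. -/
theorem result (p q : ℕ) (hq : 2 ≤ q) (hpq : p.Coprime q) (W : ℕ → ℕ → ℝ) (hW : Words p W) :
    (∀ (w : ℕ) (A ε : ℝ), 0 < ε → ∃ k₀ : ℕ, ∀ k : ℕ, k₀ ≤ k → ∀ P : ℕ → ℝ, WordLaw p W k P →
      ∀ N y : ℕ, (N : ℝ) ≤ A * k →
      ∑ m ∈ range (p ^ k), (if (∀ l j i₀ L : ℕ, 1 ≤ l → l ≤ w → j < q ^ l → q ^ (i₀ + L + l) ≤ p ^ N →
        |(((range L).filter (fun i => (m * p ^ N + y) / q ^ (i₀ + i) % q ^ l = j)).card : ℝ) -
          L / (q : ℝ) ^ l| ≤ ε * k) then 0 else P m) ≤ ε) ∧
    (∀ ε : ℝ, 0 < ε → ∃ n₀ : ℕ, ∀ n : ℕ, n₀ ≤ n → ∀ k : ℕ, ε * n / 2 ≤ k → (k : ℝ) ≤ ε * n →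
      ∀ P : ℕ → ℝ, WordLaw p W k P →
      ∑ m ∈ range (p ^ k), (if (∀ b < q,
        |((Nat.digits q (m * p ^ n)).count b : ℝ) / (n * Real.logb q p) - 1 / q| ≤ 2 * ε) then 0 else P m) ≤ ε) := by
  have hp := hW.two
  have hqR : (2 : ℝ) ≤ q := by exact_mod_cast hq
  have hq0 : (0 : ℝ) < q := by linarith
  have hpR : (2 : ℝ) ≤ p := by exact_mod_cast hp
  have hp0 : (0 : ℝ) < p := by linarith
  have hlq : 0 < Real.log (q : ℝ) := Real.log_pos (by linarith)
  have hlp : 0 < Real.log (p : ℝ) := Real.log_pos (by linarith)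
  obtain ⟨F, A', γ, hF, hγ0, hγ1, hdec⟩ := word_decays hW
  -- the common statement
  have main : ∀ (w : ℕ) (A ε : ℝ), 0 < ε → ∃ k₀ : ℕ, ∀ k : ℕ, k₀ ≤ k → ∀ P : ℕ → ℝ, WordLaw p W k P →
      ∀ N J y : ℕ, (N : ℝ) ≤ A * k → q ^ J ≤ p ^ N →
      ∑ m ∈ range (p ^ k), (if Pool.Agent.R501.MT.GoodN q w (ε * k) J (m * p ^ N + y) then 0 else P m) ≤ ε := by
    intro w A ε hε
    obtain ⟨c, k₁, h⟩ := Pool.Agent.R501.MT.decays_pow hp hq hpq w (|A| + 1) (ε / 2) (by positivity) (by positivity)
      F A' hF γ hγ0 hγ1
    obtain ⟨k₂, hk₂⟩ := exists_nat_ge (4 * (c : ℝ) / ε)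
    refine ⟨k₁ + k₂, fun k hk P hP N J y hN hJ => ?_⟩
    have hc : 4 * (c : ℝ) ≤ ε * k := by
      have h1 : 4 * (c : ℝ) / ε ≤ k := hk₂.trans (by exact_mod_cast (by omega : k₂ ≤ k))
      rw [div_le_iff₀ hε] at h1
      linarith
    have h1 := h k (by omega) N J ((y : ℝ) / (q : ℝ) ^ J) (hN.trans (by
      apply mul_le_mul_of_nonneg_right _ (Nat.cast_nonneg _)
      linarith [le_abs_self A])) hJ ℕ (range (p ^ k)) P (fun v => 0 + 1 * (v : ℕ)) (hdec k P hP 1 0)
      ((range (p ^ k)).filter (fun m : ℕ => ¬ Pool.Agent.R501.MT.GoodN q w (ε * k) J (m * p ^ N + y)))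
      (filter_subset _ _) (by
        intro m hm hcon
        rw [mem_filter] at hm
        apply hm.2
        have e1 : ((0 + 1 * ((m : ℕ) : ℤ) : ℤ) : ℝ) = (m : ℝ) := by
          push_cast
          ring
        beta_reduce at hcon
        rw [e1] at hcon
        have h3 := Pool.Agent.R501.MT.goodN_mul hq (by positivity) _ _ hcon
        intro l j i₀ L hl hlw hj hL
        refine (h3 l j i₀ L hl hlw hj hL).trans ?_
        linarith)
    refine le_trans (le_of_eq ?_) (h1.trans (by linarith))
    rw [sum_filter]
    apply sum_congr rfl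
    intro m _
    by_cases hg : Pool.Agent.R501.MT.GoodN q w (ε * k) J (m * p ^ N + y)
    · rw [if_pos hg, if_neg (not_not.2 hg)]
    · rw [if_neg hg, if_pos hg]
  refine ⟨fun w A ε hε => ?_, fun ε hε => ?_⟩
  · obtain ⟨k₀, h⟩ := main w A ε hε
    refine ⟨k₀, fun k hk P hP N y hN => ?_⟩
    have hJ1 : q ^ (Nat.log q (p ^ N)) ≤ p ^ N := Nat.pow_log_le_self q (by positivity)
    refine le_trans (sum_le_sum fun m _ => ?_) (h k hk P hP N _ y hN hJ1)
    by_cases hcon : Pool.Agent.R501.MT.GoodN q w (ε * k) (Nat.log q (p ^ N)) (m * p ^ N + y)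
    · rw [if_pos hcon, if_pos]
      intro l j i₀ L hl hlw hj hL
      refine hcon l j i₀ L hl hlw hj ?_
      have : i₀ + L + l ≤ Nat.log q (p ^ N) := Nat.le_log_of_pow_le (by omega) hL
      omega
    · rw [if_neg hcon]
      split_ifs
      · exact law_nonneg hW hP m
      · exact le_rfl
  · obtain ⟨ε', hε'⟩ : ∃ ε', ε' = min ε (min (Real.log p / (4 * Real.log q)) (Real.log p / (4 * q * ε * Real.log q))) :=
      ⟨_, rfl⟩
    have hε'0 : 0 < ε' := by rw [hε']; exact lt_min hε (lt_min (by positivity) (by positivity))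
    have hε'1 : ε' ≤ ε := by rw [hε']; exact min_le_left _ _
    have hε'2 : ε' ≤ Real.log p / (4 * Real.log q) := by rw [hε']; exact (min_le_right _ _).trans (min_le_left _ _)
    have hε'3 : ε' ≤ Real.log p / (4 * q * ε * Real.log q) := by rw [hε']; exact (min_le_right _ _).trans (min_le_right _ _)
    obtain ⟨k₀, h⟩ := main 1 (2 / ε) ε' hε'0
    obtain ⟨n₁, hn₁⟩ := Pool.Agent.Y933.KE.freq_of_low hp hq hε
    obtain ⟨n₂, hn₂⟩ := exists_nat_ge (2 * ((k₀ : ℝ) + 1) / ε)
    obtain ⟨n₃, hn₃⟩ := exists_nat_ge (4 * Real.log q / Real.log p)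
    refine ⟨n₁ + n₂ + n₃, fun n hn k hk1 hk2 P hP => ?_⟩
    have hn2 : 2 * ((k₀ : ℝ) + 1) / ε ≤ n := hn₂.trans (by exact_mod_cast (by omega : n₂ ≤ n))
    rw [div_le_iff₀ hε] at hn2
    have hn3 : 4 * Real.log q / Real.log p ≤ n := hn₃.trans (by exact_mod_cast (by omega : n₃ ≤ n))
    rw [div_le_iff₀ hlp] at hn3
    have hkk : (k₀ : ℝ) + 1 ≤ k := by linarith
    have hkk' : k₀ + 1 ≤ k := by exact_mod_cast hkk
    have hk0 : (0 : ℝ) < k := by exact_mod_cast (by omega : 0 < k)
    have hN : (n : ℝ) ≤ 2 / ε * k := by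
      rw [div_mul_eq_mul_div, le_div_iff₀ hε]
      linarith
    have hJ1 : q ^ (Nat.log q (p ^ n)) ≤ p ^ n := Nat.pow_log_le_self q (by positivity)
    refine le_trans (sum_le_sum fun m hm => ?_) ((h k (by omega) P hP n _ 0 hN hJ1).trans hε'1)
    by_cases hcon : Pool.Agent.R501.MT.GoodN q 1 (ε' * k) (Nat.log q (p ^ n)) (m * p ^ n + 0)
    · rw [if_pos hcon, if_pos]
      have hm1 : 1 ≤ m := by
        by_contra hz
        have hz' : m = 0 := by omega
        have h5 := hcon 1 1 0 (Nat.log q (p ^ n)) le_rfl le_rfl (by rw [pow_one]; omega) (by omega)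
        rw [hz', filter_false_of_mem (fun i _ => by simp), card_empty, Nat.cast_zero, zero_sub, abs_neg,
          abs_of_nonneg (by positivity), pow_one, div_le_iff₀ hq0] at h5
        have h6 : (n : ℝ) * Real.log p / Real.log q < (Nat.log q (p ^ n) : ℝ) + 1 := by
          have g1 : p ^ n < q ^ (Nat.log q (p ^ n) + 1) := Nat.lt_pow_succ_log_self (by omega) _
          have g2 : (p : ℝ) ^ n < (q : ℝ) ^ (Nat.log q (p ^ n) + 1) := by exact_mod_cast g1
          have g3 := Real.log_lt_log (by positivity) g2
          rw [Real.log_pow, Real.log_pow] at g3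
          rw [div_lt_iff₀ hlq]
          push_cast at g3
          exact g3
        have h7 : ε' * k * q ≤ (n : ℝ) * Real.log p / Real.log q / 4 := by
          calc ε' * k * q ≤ (Real.log p / (4 * q * ε * Real.log q)) * (ε * n) * q := by
                apply mul_le_mul_of_nonneg_right _ hq0.le
                exact mul_le_mul hε'3 hk2 hk0.le (by positivity)
            _ = _ := by field_simp
        have h8 : 4 ≤ (n : ℝ) * Real.log p / Real.log q := by
          rw [le_div_iff₀ hlq]
          exact hn3
        linarith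
      have hm2 : (m : ℝ) ≤ (p : ℝ) ^ (ε * n) := by
        have h4 : (m : ℝ) ≤ (p : ℝ) ^ k := by exact_mod_cast (mem_range.1 hm).le
        refine h4.trans ?_
        rw [← Real.rpow_natCast]
        exact Real.rpow_le_rpow_of_exponent_le (by linarith) hk2
      intro b hb
      refine hn₁ n (by omega) _ b hm1 hm2 ?_
      have h5 := hcon 1 b 0 (Nat.log q (p ^ n)) le_rfl le_rfl (by simpa using hb) (by omega)
      simp only [zero_add, add_zero, pow_one] at h5
      refine h5.trans ?_
      calc ε' * k ≤ Real.log p / (4 * Real.log q) * (ε * n) := mul_le_mul hε'2 hk2 hk0.le (by positivity)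
        _ = 1 / (4 * Real.log q) * (ε * n * Real.log p) := by ring
    · rw [if_neg hcon]
      split_ifs
      · exact law_nonneg hW hP m
      · exact le_rfl

end Pool.Agent.Results.MP_b08cb4_nt.WordMultiples
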