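import Mathlib
import Pool.Agent.Run7.h274.PowFar

/-!
# Words in bounded multiples of all large powers

Let `p, q ≥ 2` be coprime. For all large `n` (not only for almost all `n`), every word of `l` digits
occurs as often as we please in every window of `ε n` places of the base `q` expansion of
`m a p ^ n`, for a positive proportion of the multipliers `m ≤ M`, where `M` is any number which is at
least `4 (q + 1) q ^ l`, and for almost all `m ≤ M` if `M` is at least a constant; and this holds
uniformly for all `a ≤ exp (η n)`.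

At a place where the fractional part `θ` of `a p ^ n / q ^ i` is not near a rational number with
denominator below `4 q ^ l`, all words of length `l` are well distributed among the multiples `m θ`.
At two consecutive places of the other kind the rational numbers near `θ` determine each other, so
that a run of `h` such places gives a rational number with small denominator which is as near as
`q ^ (-h)`. By the subspace theorem (`Pool.Agent.Y933.KE.powers_far`) such runs have length `o (n)`.
-/

set_option autoImplicit false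

namespace Pool.Agent.Results.MP_b08cb4_nt.WordsInBoundedMultiples

open Finset

/-- The number of the places `i`, `u ≤ i`, `i + l ≤ u + L`, such that the word of length `l` with
value `W` stands in the base `q` expansion of the integer `Y` at the places `i, …, i + l - 1` (the
place `i` is that of `q ^ i`). -/
def occurrences (q l W Y u L : ℕ) : ℕ :=
  ((Ico u (u + L)).filter fun i => i + l ≤ u + L ∧ Y / q ^ i % q ^ l = W).card

open Classical in
/-- Let `p, q ≥ 2` be coprime, `l ≥ 1` and `ε > 0`, and let `T` be any natural number.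

(1) There are `η > 0` and `n₀` such that for all `n ≥ n₀`, all `a` with `1 ≤ a ≤ exp (η n)`, all
windows of `L ≥ ε n` places `u, …, u + L - 1` with `q ^ (u + L) ≤ p ^ n` and all
`M ≥ 4 (q + 1) q ^ l`: every word of length `l` occurs in the window of the base `q` expansion of
`m a p ^ n` at least `T` times, for at least `M / (16 q ^ l)` of the `m ≤ M`.

(2) For every `δ > 0` there are `M₀`, `η > 0` and `n₀` such that for all `n ≥ n₀`, all `a` with
`1 ≤ a ≤ exp (η n)` and all `M ≥ M₀`, for all but at most `δ M` of the `m ≤ M`: every word of length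
`l` occurs at least `T` times in every window of at least `ε n` places, as in (1), of the base `q`
expansion of `m a p ^ n`. -/
theorem result (p q : ℕ) (hp : 2 ≤ p) (hq : 2 ≤ q) (hpq : p.Coprime q) (l T : ℕ) (hl : 1 ≤ l)
    (ε : ℝ) (hε : 0 < ε) :
    (∃ η : ℝ, 0 < η ∧ ∃ n₀ : ℕ, ∀ n : ℕ, n₀ ≤ n → ∀ a : ℕ, 1 ≤ a → (a : ℝ) ≤ Real.exp (η * n) →
      ∀ u L : ℕ, ε * n ≤ L → q ^ (u + L) ≤ p ^ n → ∀ M : ℕ, 4 * (q + 1) * q ^ l ≤ M →
        ∀ W < q ^ l, M ≤ 16 * q ^ l *
          ((Icc 1 M).filter (fun m : ℕ => T ≤ occurrences q l W (m * (a * p ^ n)) u L)).card) ∧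
    (∀ δ : ℝ, 0 < δ → ∃ M₀ : ℕ, ∃ η : ℝ, 0 < η ∧ ∃ n₀ : ℕ, ∀ n : ℕ, n₀ ≤ n → ∀ a : ℕ, 1 ≤ a →
      (a : ℝ) ≤ Real.exp (η * n) → ∀ M : ℕ, M₀ ≤ M →
        (((Icc 1 M).filter (fun m : ℕ => ¬ ∀ u L : ℕ, ε * n ≤ L → q ^ (u + L) ≤ p ^ n →
          ∀ W < q ^ l, T ≤ occurrences q l W (m * (a * p ^ n)) u L)).card : ℝ) ≤ δ * M) :=
  ⟨Pool.Agent.Run7.h274.WM.pow_pos_words hp hq hpq l T hl hε,
    fun _ hδ => Pool.Agent.Run7.h274.WM.pow_most_words hp hq hpq l T hl hε hδ⟩

end Pool.Agent.Results.MP_b08cb4_nt.WordsInBoundedMultiples
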